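import Mathlib

/-!
# The achievement set of the series of the vectors ((-1)^n/n, (-1)^n/sqrt n) is the whole plane

Block `i` owns the indices `16 i + r` and `64 i + r` with suitable residues `r < 16`. One term of
size `16 i` against two terms of size `64 i` moves the first coordinate by about `1/(32 i)`, one term
of size `16 i` against four terms of size `64 i` moves the second coordinate by about
`1/(4 sqrt i)`; the unwanted parts are `O(i^(-2))` and `O(i^(-3/2))`. A greedy choice of signs brings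
the error below these sizes, and then finitely many (at most 32) blocks per stage, the stages being
`I` and `4 (I + 32)`, keep it there, so that the subseries converges in the original order.
-/

namespace Pool.Agent.Results.MP_51e3e3_an.WholePlane

open Finset Filter Topology

/-- First coordinates of the terms. -/
noncomputable def vx (n : ℕ) : ℝ := (-1) ^ n / n

/-- Second coordinates of the terms. -/
noncomputable def vy (n : ℕ) : ℝ := (-1) ^ n / √n

/-- Indices of a move of the first coordinate. -/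
def QX (i : ℕ) (s : Bool) : Finset ℕ :=
  if s then {16 * i, 64 * i + 3, 64 * i + 5} else {16 * i + 1, 64 * i + 2, 64 * i + 4}

/-- Indices of a move of the second coordinate. -/
def QY (i : ℕ) (s : Bool) : Finset ℕ :=
  if s then {16 * i + 7, 64 * i + 8, 64 * i + 10, 64 * i + 12, 64 * i + 14}
  else {16 * i + 6, 64 * i + 9, 64 * i + 11, 64 * i + 13, 64 * i + 15}

/-- The sign of a Boolean. -/
def sg (s : Bool) : ℝ := if s then 1 else -1

/-- The block an index belongs to. -/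
def owner (n : ℕ) : ℕ :=
  if n % 16 = 0 ∨ n % 16 = 1 ∨ n % 16 = 6 ∨ n % 16 = 7 then n / 16 else n / 64

lemma owner_le (n : ℕ) : 16 * owner n ≤ n := by
  unfold owner; split_ifs <;> omega

lemma lt_owner (n : ℕ) : n < 64 * owner n + 64 := by
  unfold owner; split_ifs <;> omega

lemma owner_QX {i : ℕ} {s : Bool} {n : ℕ} (h : n ∈ QX i s) : owner n = i := by
  unfold QX at h
  cases s <;> simp at h <;> unfold owner <;> rcases h with h | h | h <;> subst h <;>
    split_ifs <;> omega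

lemma owner_QY {i : ℕ} {s : Bool} {n : ℕ} (h : n ∈ QY i s) : owner n = i := by
  unfold QY at h
  cases s <;> simp at h <;> unfold owner <;> rcases h with h | h | h | h | h <;> subst h <;>
    split_ifs <;> omega

lemma disj_QXQY (i : ℕ) (s t : Bool) : Disjoint (QX i s) (QY i t) := by
  rw [Finset.disjoint_left]
  intro n h1 h2
  unfold QX at h1
  unfold QY at h2
  cases s <;> cases t <;> simp at h1 h2 <;> omega

lemma inv_err {c r : ℝ} (hc : 0 < c) (hr : 0 ≤ r) (hr15 : r ≤ 15) :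
    |1 / (c + r) - 1 / c| ≤ 15 / c ^ 2 := by
  have h1 : 1 / (c + r) - 1 / c = -(r / ((c + r) * c)) := by
    have : 0 < c + r := by linarith
    field_simp
    ring
  rw [h1, abs_neg, abs_of_nonneg (by positivity)]
  rw [div_le_div_iff₀ (by positivity) (by positivity)]
  have : c ^ 2 ≤ (c + r) * c := by nlinarith
  calc r * c ^ 2 ≤ 15 * c ^ 2 := by apply mul_le_mul_of_nonneg_right hr15 (by positivity)
    _ ≤ 15 * ((c + r) * c) := by linarith

lemma sqrt_err {c r : ℝ} (hc : 0 < c) (hr : 0 ≤ r) (hr15 : r ≤ 15) :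
    |1 / √(c + r) - 1 / √c| ≤ 15 / (2 * (√c) ^ 3) := by
  set s := √c with hs
  set t := √(c + r) with ht
  have hs0 : 0 < s := Real.sqrt_pos.mpr hc
  have hst : s ≤ t := Real.sqrt_le_sqrt (by linarith)
  have ht0 : 0 < t := by linarith
  have hs2 : s ^ 2 = c := Real.sq_sqrt hc.le
  have ht2 : t ^ 2 = c + r := Real.sq_sqrt (by linarith)
  have h1 : 1 / t - 1 / s = -((t - s) / (s * t)) := by
    field_simp
    ring
  rw [h1, abs_neg, abs_of_nonneg (div_nonneg (by linarith) (by positivity))]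
  rw [div_le_div_iff₀ (by positivity) (by positivity)]
  have h2 : (t - s) * (t + s) ≤ 15 := by nlinarith
  have h3 : (t - s) * (2 * s) ≤ 15 := by nlinarith
  calc (t - s) * (2 * s ^ 3) = ((t - s) * (2 * s)) * (s * s) := by ring
    _ ≤ 15 * (s * s) := by apply mul_le_mul_of_nonneg_right h3 (by positivity)
    _ ≤ 15 * (s * t) := by
        have : s * s ≤ s * t := mul_le_mul_of_nonneg_left hst hs0.le
        linarith

lemma vx_even {n : ℕ} (h : Even n) : vx n = 1 / n := by unfold vx; rw [h.neg_one_pow]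
lemma vx_odd {n : ℕ} (h : Odd n) : vx n = -(1 / n) := by unfold vx; rw [h.neg_one_pow]; ring
lemma vy_even {n : ℕ} (h : Even n) : vy n = 1 / √n := by unfold vy; rw [h.neg_one_pow]
lemma vy_odd {n : ℕ} (h : Odd n) : vy n = -(1 / √n) := by unfold vy; rw [h.neg_one_pow]; ring

lemma abs_vx_le (n : ℕ) : |vx n| ≤ 1 / n := by
  unfold vx
  rw [abs_div, abs_pow, abs_neg, abs_one, one_pow, abs_of_nonneg (Nat.cast_nonneg n)]

lemma abs_vy_le (n : ℕ) : |vy n| ≤ 1 / √n := by
  unfold vy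
  rw [abs_div, abs_pow, abs_neg, abs_one, one_pow, abs_of_nonneg (Real.sqrt_nonneg _)]

lemma inv16 {i r : ℕ} (hi : 1 ≤ i) (hr : r ≤ 15) :
    |1 / ((16 * i + r : ℕ) : ℝ) - 1 / (16 * (i:ℝ))| ≤ 15 / (256 * (i:ℝ) ^ 2) := by
  have hi0 : (0:ℝ) < i := by exact_mod_cast hi
  have h := inv_err (c := 16 * (i:ℝ)) (r := r) (by positivity) (by positivity) (by exact_mod_cast hr)
  push_cast
  refine h.trans (le_of_eq ?_)
  ring

lemma inv64 {i r : ℕ} (hi : 1 ≤ i) (hr : r ≤ 15) :
    |1 / ((64 * i + r : ℕ) : ℝ) - 1 / (64 * (i:ℝ))| ≤ 15 / (4096 * (i:ℝ) ^ 2) := by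
  have hi0 : (0:ℝ) < i := by exact_mod_cast hi
  have h := inv_err (c := 64 * (i:ℝ)) (r := r) (by positivity) (by positivity) (by exact_mod_cast hr)
  push_cast
  refine h.trans (le_of_eq ?_)
  ring

lemma sqrt16 (i : ℕ) : √(16 * (i:ℝ)) = 4 * √i := by
  rw [show (16:ℝ) * i = 4 ^ 2 * i by norm_num, Real.sqrt_mul (by positivity), Real.sqrt_sq (by norm_num)]

lemma sqrt64 (i : ℕ) : √(64 * (i:ℝ)) = 8 * √i := by
  rw [show (64:ℝ) * i = 8 ^ 2 * i by norm_num, Real.sqrt_mul (by positivity), Real.sqrt_sq (by norm_num)]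

lemma rs16 {i r : ℕ} (hi : 1 ≤ i) (hr : r ≤ 15) :
    |1 / √((16 * i + r : ℕ) : ℝ) - 1 / (4 * √(i:ℝ))| ≤ 15 / (128 * (√(i:ℝ)) ^ 3) := by
  have hi0 : (0:ℝ) < i := by exact_mod_cast hi
  have h := sqrt_err (c := 16 * (i:ℝ)) (r := r) (by positivity) (by positivity) (by exact_mod_cast hr)
  push_cast
  rw [sqrt16] at h
  refine h.trans (le_of_eq ?_)
  ring

lemma rs64 {i r : ℕ} (hi : 1 ≤ i) (hr : r ≤ 15) :
    |1 / √((64 * i + r : ℕ) : ℝ) - 1 / (8 * √(i:ℝ))| ≤ 15 / (1024 * (√(i:ℝ)) ^ 3) := by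
  have hi0 : (0:ℝ) < i := by exact_mod_cast hi
  have h := sqrt_err (c := 64 * (i:ℝ)) (r := r) (by positivity) (by positivity) (by exact_mod_cast hr)
  push_cast
  rw [sqrt64] at h
  refine h.trans (le_of_eq ?_)
  ring

lemma sum_QX (f : ℕ → ℝ) {i : ℕ} (hi : 1 ≤ i) (s : Bool) : ∑ n ∈ QX i s, f n =
    if s then f (16 * i + 0) + f (64 * i + 3) + f (64 * i + 5)
    else f (16 * i + 1) + f (64 * i + 2) + f (64 * i + 4) := by
  unfold QX
  cases s
  · simp only [Bool.false_eq_true, if_false]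
    rw [Finset.sum_insert (by simp; omega), Finset.sum_insert (by simp), Finset.sum_singleton]
    ring
  · simp only [if_true]
    rw [Finset.sum_insert (by simp; omega), Finset.sum_insert (by simp), Finset.sum_singleton]
    simp only [add_zero]
    ring

lemma sum_QY (f : ℕ → ℝ) {i : ℕ} (hi : 1 ≤ i) (s : Bool) : ∑ n ∈ QY i s, f n =
    if s then f (16 * i + 7) + f (64 * i + 8) + f (64 * i + 10) + f (64 * i + 12) + f (64 * i + 14)
    else f (16 * i + 6) + f (64 * i + 9) + f (64 * i + 11) + f (64 * i + 13) + f (64 * i + 15) := by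
  unfold QY
  cases s
  · simp only [Bool.false_eq_true, if_false]
    rw [Finset.sum_insert (by simp; omega), Finset.sum_insert (by simp), Finset.sum_insert (by simp),
      Finset.sum_insert (by simp), Finset.sum_singleton]
    ring
  · simp only [if_true]
    rw [Finset.sum_insert (by simp; omega), Finset.sum_insert (by simp), Finset.sum_insert (by simp),
      Finset.sum_insert (by simp), Finset.sum_singleton]
    ring

lemma par16e (i : ℕ) {r : ℕ} (h : Even r) : Even (16 * i + r) := by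
  obtain ⟨k, rfl⟩ := h; exact ⟨8 * i + k, by ring⟩
lemma par16o (i : ℕ) {r : ℕ} (h : Odd r) : Odd (16 * i + r) := by
  obtain ⟨k, rfl⟩ := h; exact ⟨8 * i + k, by ring⟩
lemma par64e (i : ℕ) {r : ℕ} (h : Even r) : Even (64 * i + r) := by
  obtain ⟨k, rfl⟩ := h; exact ⟨32 * i + k, by ring⟩
lemma par64o (i : ℕ) {r : ℕ} (h : Odd r) : Odd (64 * i + r) := by
  obtain ⟨k, rfl⟩ := h; exact ⟨32 * i + k, by ring⟩

lemma QX_x {i : ℕ} (hi : 1 ≤ i) (s : Bool) :
    |∑ n ∈ QX i s, vx n - sg s * (1 / (32 * (i:ℝ)))| ≤ 1 / (8 * (i:ℝ) ^ 2) := by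
  have hi0 : (0:ℝ) < i := by exact_mod_cast hi
  rw [sum_QX vx hi s]
  have key : (1:ℝ) / (32 * i) = 1 / (16 * i) - 1 / (64 * i) - 1 / (64 * i) := by field_simp; norm_num
  have hb : 15 / (256 * (i:ℝ) ^ 2) + 15 / (4096 * (i:ℝ) ^ 2) + 15 / (4096 * (i:ℝ) ^ 2)
      ≤ 1 / (8 * (i:ℝ) ^ 2) := by
    have : (0:ℝ) < (i:ℝ) ^ 2 := by positivity
    rw [div_add_div _ _ (by positivity) (by positivity), div_add_div _ _ (by positivity) (by positivity),
      div_le_div_iff₀ (by positivity) (by positivity)]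
    have : 0 ≤ ((i:ℝ) ^ 2) * ((i:ℝ) ^ 2) * ((i:ℝ) ^ 2) * ((i:ℝ) ^ 2) := by positivity
    nlinarith
  cases s
  · simp only [Bool.false_eq_true, if_false, sg]
    rw [vx_odd (par16o i (by decide : Odd 1)), vx_even (par64e i (by decide : Even 2)),
      vx_even (par64e i (by decide : Even 4))]
    have h1 := abs_le.mp (inv16 (r := 1) hi (by norm_num))
    have h2 := abs_le.mp (inv64 (r := 2) hi (by norm_num))
    have h3 := abs_le.mp (inv64 (r := 4) hi (by norm_num))
    rw [key, abs_le]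
    constructor <;> linarith [h1.1, h1.2, h2.1, h2.2, h3.1, h3.2]
  · simp only [if_true, sg]
    rw [vx_even (par16e i (by decide : Even 0)), vx_odd (par64o i (by decide : Odd 3)),
      vx_odd (par64o i (by decide : Odd 5))]
    have h1 := abs_le.mp (inv16 (r := 0) hi (by norm_num))
    have h2 := abs_le.mp (inv64 (r := 3) hi (by norm_num))
    have h3 := abs_le.mp (inv64 (r := 5) hi (by norm_num))
    rw [key, abs_le]
    constructor <;> linarith [h1.1, h1.2, h2.1, h2.2, h3.1, h3.2]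

lemma QX_y {i : ℕ} (hi : 1 ≤ i) (s : Bool) :
    |∑ n ∈ QX i s, vy n| ≤ 1 / (4 * (√(i:ℝ)) ^ 3) := by
  have hi0 : (0:ℝ) < i := by exact_mod_cast hi
  have hs0 : (0:ℝ) < √(i:ℝ) := Real.sqrt_pos.mpr hi0
  rw [sum_QX vy hi s]
  have key : (1:ℝ) / (4 * √(i:ℝ)) - 1 / (8 * √(i:ℝ)) - 1 / (8 * √(i:ℝ)) = 0 := by field_simp; norm_num
  have hb : 15 / (128 * (√(i:ℝ)) ^ 3) + 15 / (1024 * (√(i:ℝ)) ^ 3) + 15 / (1024 * (√(i:ℝ)) ^ 3)
      ≤ 1 / (4 * (√(i:ℝ)) ^ 3) := by
    have h3 : (0:ℝ) < (√(i:ℝ)) ^ 3 := by positivity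
    have e1 : 15 / (128 * (√(i:ℝ)) ^ 3) + 15 / (1024 * (√(i:ℝ)) ^ 3) + 15 / (1024 * (√(i:ℝ)) ^ 3)
      = (150/1024) / (√(i:ℝ)) ^ 3 := by field_simp; norm_num
    have e2 : 1 / (4 * (√(i:ℝ)) ^ 3) = (1/4) / (√(i:ℝ)) ^ 3 := by field_simp
    rw [e1, e2]
    apply div_le_div_of_nonneg_right (by norm_num) h3.le
  cases s
  · simp only [Bool.false_eq_true, if_false]
    rw [vy_odd (par16o i (by decide : Odd 1)), vy_even (par64e i (by decide : Even 2)),
      vy_even (par64e i (by decide : Even 4))]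
    have h1 := abs_le.mp (rs16 (r := 1) hi (by norm_num))
    have h2 := abs_le.mp (rs64 (r := 2) hi (by norm_num))
    have h3 := abs_le.mp (rs64 (r := 4) hi (by norm_num))
    rw [abs_le]
    constructor <;> linarith [h1.1, h1.2, h2.1, h2.2, h3.1, h3.2]
  · simp only [if_true]
    rw [vy_even (par16e i (by decide : Even 0)), vy_odd (par64o i (by decide : Odd 3)),
      vy_odd (par64o i (by decide : Odd 5))]
    have h1 := abs_le.mp (rs16 (r := 0) hi (by norm_num))
    have h2 := abs_le.mp (rs64 (r := 3) hi (by norm_num))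
    have h3 := abs_le.mp (rs64 (r := 5) hi (by norm_num))
    rw [abs_le]
    constructor <;> linarith [h1.1, h1.2, h2.1, h2.2, h3.1, h3.2]

lemma QY_x {i : ℕ} (hi : 1 ≤ i) (s : Bool) :
    |∑ n ∈ QY i s, vx n| ≤ 1 / (8 * (i:ℝ) ^ 2) := by
  have hi0 : (0:ℝ) < i := by exact_mod_cast hi
  rw [sum_QY vx hi s]
  have key : (1:ℝ) / (16 * i) - 1 / (64 * i) - 1 / (64 * i) - 1 / (64 * i) - 1 / (64 * i) = 0 := by
    field_simp; norm_num
  have hb : 15 / (256 * (i:ℝ) ^ 2) + 4 * (15 / (4096 * (i:ℝ) ^ 2))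
      ≤ 1 / (8 * (i:ℝ) ^ 2) := by
    have h3 : (0:ℝ) < (i:ℝ) ^ 2 := by positivity
    have e1 : 15 / (256 * (i:ℝ) ^ 2) + 4 * (15 / (4096 * (i:ℝ) ^ 2))
      = (300/4096) / (i:ℝ) ^ 2 := by field_simp; norm_num
    have e2 : 1 / (8 * (i:ℝ) ^ 2) = (1/8) / (i:ℝ) ^ 2 := by field_simp
    rw [e1, e2]
    apply div_le_div_of_nonneg_right (by norm_num) h3.le
  cases s
  · simp only [Bool.false_eq_true, if_false]
    rw [vx_even (par16e i (by decide : Even 6)), vx_odd (par64o i (by decide : Odd 9)),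
      vx_odd (par64o i (by decide : Odd 11)), vx_odd (par64o i (by decide : Odd 13)),
      vx_odd (par64o i (by decide : Odd 15))]
    have h1 := abs_le.mp (inv16 (r := 6) hi (by norm_num))
    have h2 := abs_le.mp (inv64 (r := 9) hi (by norm_num))
    have h3 := abs_le.mp (inv64 (r := 11) hi (by norm_num))
    have h4 := abs_le.mp (inv64 (r := 13) hi (by norm_num))
    have h5 := abs_le.mp (inv64 (r := 15) hi (by norm_num))
    rw [abs_le]
    constructor <;> linarith [h1.1, h1.2, h2.1, h2.2, h3.1, h3.2, h4.1, h4.2, h5.1, h5.2]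
  · simp only [if_true]
    rw [vx_odd (par16o i (by decide : Odd 7)), vx_even (par64e i (by decide : Even 8)),
      vx_even (par64e i (by decide : Even 10)), vx_even (par64e i (by decide : Even 12)),
      vx_even (par64e i (by decide : Even 14))]
    have h1 := abs_le.mp (inv16 (r := 7) hi (by norm_num))
    have h2 := abs_le.mp (inv64 (r := 8) hi (by norm_num))
    have h3 := abs_le.mp (inv64 (r := 10) hi (by norm_num))
    have h4 := abs_le.mp (inv64 (r := 12) hi (by norm_num))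
    have h5 := abs_le.mp (inv64 (r := 14) hi (by norm_num))
    rw [abs_le]
    constructor <;> linarith [h1.1, h1.2, h2.1, h2.2, h3.1, h3.2, h4.1, h4.2, h5.1, h5.2]

lemma QY_y {i : ℕ} (hi : 1 ≤ i) (s : Bool) :
    |∑ n ∈ QY i s, vy n - sg s * (1 / (4 * √(i:ℝ)))| ≤ 1 / (4 * (√(i:ℝ)) ^ 3) := by
  have hi0 : (0:ℝ) < i := by exact_mod_cast hi
  have hs0 : (0:ℝ) < √(i:ℝ) := Real.sqrt_pos.mpr hi0
  rw [sum_QY vy hi s]
  have key : (1:ℝ) / (4 * √(i:ℝ)) = 1 / (8 * √(i:ℝ)) + 1 / (8 * √(i:ℝ)) + 1 / (8 * √(i:ℝ)) + 1 / (8 * √(i:ℝ))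
      - 1 / (4 * √(i:ℝ)) := by field_simp; norm_num
  have hb : 15 / (128 * (√(i:ℝ)) ^ 3) + 4 * (15 / (1024 * (√(i:ℝ)) ^ 3))
      ≤ 1 / (4 * (√(i:ℝ)) ^ 3) := by
    have h3 : (0:ℝ) < (√(i:ℝ)) ^ 3 := by positivity
    have e1 : 15 / (128 * (√(i:ℝ)) ^ 3) + 4 * (15 / (1024 * (√(i:ℝ)) ^ 3))
      = (180/1024) / (√(i:ℝ)) ^ 3 := by field_simp; norm_num
    have e2 : 1 / (4 * (√(i:ℝ)) ^ 3) = (1/4) / (√(i:ℝ)) ^ 3 := by field_simp
    rw [e1, e2]
    apply div_le_div_of_nonneg_right (by norm_num) h3.le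
  cases s
  · simp only [Bool.false_eq_true, if_false, sg]
    rw [vy_even (par16e i (by decide : Even 6)), vy_odd (par64o i (by decide : Odd 9)),
      vy_odd (par64o i (by decide : Odd 11)), vy_odd (par64o i (by decide : Odd 13)),
      vy_odd (par64o i (by decide : Odd 15))]
    have h1 := abs_le.mp (rs16 (r := 6) hi (by norm_num))
    have h2 := abs_le.mp (rs64 (r := 9) hi (by norm_num))
    have h3 := abs_le.mp (rs64 (r := 11) hi (by norm_num))
    have h4 := abs_le.mp (rs64 (r := 13) hi (by norm_num))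
    have h5 := abs_le.mp (rs64 (r := 15) hi (by norm_num))
    rw [abs_le]
    constructor <;> linarith [h1.1, h1.2, h2.1, h2.2, h3.1, h3.2, h4.1, h4.2, h5.1, h5.2]
  · simp only [if_true, sg]
    rw [vy_odd (par16o i (by decide : Odd 7)), vy_even (par64e i (by decide : Even 8)),
      vy_even (par64e i (by decide : Even 10)), vy_even (par64e i (by decide : Even 12)),
      vy_even (par64e i (by decide : Even 14))]
    have h1 := abs_le.mp (rs16 (r := 7) hi (by norm_num))
    have h2 := abs_le.mp (rs64 (r := 8) hi (by norm_num))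
    have h3 := abs_le.mp (rs64 (r := 10) hi (by norm_num))
    have h4 := abs_le.mp (rs64 (r := 12) hi (by norm_num))
    have h5 := abs_le.mp (rs64 (r := 14) hi (by norm_num))
    rw [abs_le]
    constructor <;> linarith [h1.1, h1.2, h2.1, h2.2, h3.1, h3.2, h4.1, h4.2, h5.1, h5.2]


/-! ### One step -/

lemma abs_sub_sg {x m : ℝ} (_hm : 0 ≤ m) (s : Bool) (hs : s = true ↔ 0 ≤ x) :
    |x - sg s * m| ≤ max (|x| - m) m := by
  unfold sg
  cases s
  · have hx : x < 0 := by
      by_contra h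
      push Not at h
      exact absurd (hs.mpr h) (by simp)
    simp only [Bool.false_eq_true, if_false]
    rw [abs_of_neg hx, abs_le]
    constructor
    · have := le_max_left (-x - m) m; linarith
    · have := le_max_right (-x - m) m; linarith
  · have hx : 0 ≤ x := hs.mp rfl
    simp only [if_true]
    rw [abs_of_nonneg hx, abs_le]
    constructor
    · have := le_max_right (x - m) m; linarith
    · have := le_max_left (x - m) m; linarith

lemma one_step (i : ℕ) (hi : 1 ≤ i) (x y : ℝ) : ∃ Q : Finset ℕ, (∀ n ∈ Q, owner n = i) ∧ Q.card ≤ 8 ∧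
    |x - ∑ n ∈ Q, vx n| ≤ max (|x| - 1 / (32 * (i:ℝ))) (1 / (32 * (i:ℝ))) + 1 / (4 * (i:ℝ) ^ 2) ∧
    |y - ∑ n ∈ Q, vy n| ≤ max (|y| - 1 / (4 * √(i:ℝ))) (1 / (4 * √(i:ℝ))) + 1 / (2 * (√(i:ℝ)) ^ 3) := by
  classical
  have hi0 : (0:ℝ) < i := by exact_mod_cast hi
  have hs0 : (0:ℝ) < √(i:ℝ) := Real.sqrt_pos.mpr hi0
  set s : Bool := decide (0 ≤ x) with hs
  set t : Bool := decide (0 ≤ y) with ht
  refine ⟨QX i s ∪ QY i t, ?_, ?_, ?_, ?_⟩
  · intro n hn
    rcases Finset.mem_union.mp hn with h | h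
    · exact owner_QX h
    · exact owner_QY h
  · refine (Finset.card_union_le _ _).trans ?_
    have h1 : (QX i s).card ≤ 3 := by
      unfold QX; split_ifs <;> exact Finset.card_le_three
    have h2 : (QY i t).card ≤ 5 := by
      unfold QY; split_ifs <;> exact Finset.card_le_five
    omega
  · rw [Finset.sum_union (disj_QXQY i s t)]
    have h1 := QX_x hi s
    have h2 := QY_x hi t
    have h3 := abs_sub_sg (x := x) (m := 1 / (32 * (i:ℝ))) (by positivity) s (by simp [hs])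
    have e : x - (∑ n ∈ QX i s, vx n + ∑ n ∈ QY i t, vx n)
      = (x - sg s * (1 / (32 * (i:ℝ)))) - (∑ n ∈ QX i s, vx n - sg s * (1 / (32 * (i:ℝ))))
        - ∑ n ∈ QY i t, vx n := by ring
    rw [e]
    have e2 : 1 / (4 * (i:ℝ) ^ 2) = 1 / (8 * (i:ℝ) ^ 2) + 1 / (8 * (i:ℝ) ^ 2) := by
      field_simp; norm_num
    rw [e2]
    refine (abs_sub _ _).trans ?_
    have h4 := abs_sub (x - sg s * (1 / (32 * (i:ℝ)))) (∑ n ∈ QX i s, vx n - sg s * (1 / (32 * (i:ℝ))))
    linarith
  · rw [Finset.sum_union (disj_QXQY i s t)]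
    have h1 := QX_y hi s
    have h2 := QY_y hi t
    have h3 := abs_sub_sg (x := y) (m := 1 / (4 * √(i:ℝ))) (by positivity) t (by simp [ht])
    have e : y - (∑ n ∈ QX i s, vy n + ∑ n ∈ QY i t, vy n)
      = (y - sg t * (1 / (4 * √(i:ℝ)))) - (∑ n ∈ QY i t, vy n - sg t * (1 / (4 * √(i:ℝ))))
        - ∑ n ∈ QX i s, vy n := by ring
    rw [e]
    have e2 : 1 / (2 * (√(i:ℝ)) ^ 3) = 1 / (4 * (√(i:ℝ)) ^ 3) + 1 / (4 * (√(i:ℝ)) ^ 3) := by
      field_simp; norm_num
    rw [e2]
    refine (abs_sub _ _).trans ?_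
    have h4 := abs_sub (y - sg t * (1 / (4 * √(i:ℝ)))) (∑ n ∈ QY i t, vy n - sg t * (1 / (4 * √(i:ℝ))))
    linarith

/-- Sizes of the moves. -/
noncomputable def mx (i : ℕ) : ℝ := 1 / (32 * (i:ℝ))
/-- Sizes of the moves. -/
noncomputable def my (i : ℕ) : ℝ := 1 / (4 * √(i:ℝ))
/-- Errors of the moves. -/
noncomputable def ex (i : ℕ) : ℝ := 1 / (4 * (i:ℝ) ^ 2)
/-- Errors of the moves. -/
noncomputable def ey (i : ℕ) : ℝ := 1 / (2 * (√(i:ℝ)) ^ 3)

lemma steps (I : ℕ) (hI : 1 ≤ I) (x y : ℝ) : ∃ G : ℕ → Finset ℕ, G 0 = ∅ ∧ ∀ k,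
    (∀ n ∈ G k, I ≤ owner n ∧ owner n < I + k) ∧ (G k).card ≤ 8 * k ∧
    |x - ∑ n ∈ G (k + 1), vx n| ≤ max (|x - ∑ n ∈ G k, vx n| - mx (I + k)) (mx (I + k)) + ex (I + k) ∧
    |y - ∑ n ∈ G (k + 1), vy n| ≤ max (|y - ∑ n ∈ G k, vy n| - my (I + k)) (my (I + k)) + ey (I + k) := by
  classical
  choose! Q hQ1 hQ2 hQ3 hQ4 using one_step
  let G : ℕ → Finset ℕ := fun k => Nat.rec ∅ (fun k T => T ∪ Q (I + k) (x - ∑ n ∈ T, vx n)
    (y - ∑ n ∈ T, vy n)) k
  have hG0 : G 0 = ∅ := rfl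
  have hGs : ∀ k, G (k + 1) = G k ∪ Q (I + k) (x - ∑ n ∈ G k, vx n) (y - ∑ n ∈ G k, vy n) :=
    fun k => rfl
  have hA : ∀ k, (∀ n ∈ G k, I ≤ owner n ∧ owner n < I + k) ∧ (G k).card ≤ 8 * k := by
    intro k
    induction k with
    | zero => rw [hG0]; simp
    | succ k ih =>
      rw [hGs k]
      constructor
      · intro n hn
        rcases Finset.mem_union.mp hn with h | h
        · have := ih.1 n h; omega
        · have := hQ1 (I + k) (by omega) _ _ n h; omega
      · refine (Finset.card_union_le _ _).trans ?_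
        have := hQ2 (I + k) (by omega) (x - ∑ n ∈ G k, vx n) (y - ∑ n ∈ G k, vy n)
        have := ih.2
        omega
  refine ⟨G, hG0, fun k => ⟨(hA k).1, (hA k).2, ?_, ?_⟩⟩
  · have hd : Disjoint (G k) (Q (I + k) (x - ∑ n ∈ G k, vx n) (y - ∑ n ∈ G k, vy n)) := by
      rw [Finset.disjoint_left]
      intro n h1 h2
      have := (hA k).1 n h1
      have := hQ1 (I + k) (by omega) _ _ n h2
      omega
    rw [hGs k, Finset.sum_union hd, ← sub_sub]
    exact hQ3 (I + k) (by omega) (x - ∑ n ∈ G k, vx n) (y - ∑ n ∈ G k, vy n)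
  · have hd : Disjoint (G k) (Q (I + k) (x - ∑ n ∈ G k, vx n) (y - ∑ n ∈ G k, vy n)) := by
      rw [Finset.disjoint_left]
      intro n h1 h2
      have := (hA k).1 n h1
      have := hQ1 (I + k) (by omega) _ _ n h2
      omega
    rw [hGs k, Finset.sum_union hd, ← sub_sub]
    exact hQ4 (I + k) (by omega) (x - ∑ n ∈ G k, vx n) (y - ∑ n ∈ G k, vy n)

lemma dyn (m e u : ℕ → ℝ) (he : ∀ k, e k ≤ m k / 2)
    (hm2 : ∀ k, m k + e k ≤ 2 * m (k + 1)) (hu : ∀ k, u (k + 1) ≤ max (u k - m k) (m k) + e k) :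
    ∀ K, u K ≤ 2 * m K ∨ u K ≤ u 0 - ∑ k ∈ range K, m k / 2 := by
  intro K
  induction K with
  | zero => right; simp
  | succ K ih =>
    have h1 := hu K
    by_cases h2 : u K ≤ 2 * m K
    · left
      have h3 : max (u K - m K) (m K) ≤ m K := max_le (by linarith) le_rfl
      linarith [hm2 K]
    · right
      push Not at h2
      have h3 : u K ≤ u 0 - ∑ k ∈ range K, m k / 2 := by
        rcases ih with h | h
        · linarith
        · exact h
      have h4 : max (u K - m K) (m K) = u K - m K := max_eq_left (by linarith)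
      rw [h4] at h1
      rw [Finset.sum_range_succ]
      linarith [he K]

lemma mx_pos {i : ℕ} (hi : 1 ≤ i) : 0 < mx i := by
  have : (0:ℝ) < i := by exact_mod_cast hi
  unfold mx; positivity
lemma my_pos {i : ℕ} (hi : 1 ≤ i) : 0 < my i := by
  have : (0:ℝ) < i := by exact_mod_cast hi
  have := Real.sqrt_pos.mpr this
  unfold my; positivity

lemma ex_le {i : ℕ} (hi : 64 ≤ i) : ex i ≤ mx i / 2 := by
  have h : (64:ℝ) ≤ i := by exact_mod_cast hi
  unfold ex mx
  rw [div_div, div_le_div_iff₀ (by positivity) (by positivity)]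
  nlinarith

lemma ey_le {i : ℕ} (hi : 64 ≤ i) : ey i ≤ my i / 2 := by
  have h : (64:ℝ) ≤ i := by exact_mod_cast hi
  have hs : (8:ℝ) ≤ √(i:ℝ) := Real.le_sqrt_of_sq_le (by linarith)
  unfold ey my
  rw [div_div, div_le_div_iff₀ (by positivity) (by positivity)]
  have : (64:ℝ) ≤ (√(i:ℝ)) ^ 2 := by nlinarith
  have e : 1 * (2 * (√(i:ℝ)) ^ 3) = 2 * (√(i:ℝ)) ^ 2 * √(i:ℝ) := by ring
  rw [e]
  nlinarith

lemma mx_succ {i : ℕ} (hi : 64 ≤ i) : mx i + ex i ≤ 2 * mx (i + 1) := by
  have h : (64:ℝ) ≤ i := by exact_mod_cast hi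
  unfold ex mx
  push_cast
  rw [div_add_div _ _ (by positivity) (by positivity), mul_one_div,
    div_le_div_iff₀ (by positivity) (by positivity)]
  nlinarith [sq_nonneg ((i:ℝ)), mul_pos (show (0:ℝ) < i by linarith) (show (0:ℝ) < i by linarith),
    mul_nonneg (sq_nonneg (i:ℝ)) (show (0:ℝ) ≤ i - 64 by linarith)]

lemma my_succ {i : ℕ} (hi : 64 ≤ i) : my i + ey i ≤ 2 * my (i + 1) := by
  have h : (64:ℝ) ≤ i := by exact_mod_cast hi
  have hs : (8:ℝ) ≤ √(i:ℝ) := Real.le_sqrt_of_sq_le (by linarith)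
  set s := √(i:ℝ) with hsd
  have hs2 : s ^ 2 = i := Real.sq_sqrt (by linarith)
  have ht : √((i:ℝ) + 1) ≤ 5 / 4 * s := by
    rw [Real.sqrt_le_left (by positivity)]
    nlinarith
  have ht0 : 0 < √((i:ℝ) + 1) := Real.sqrt_pos.mpr (by linarith)
  unfold ey my
  push_cast
  rw [← hsd]
  have h1 : 1 / (4 * s) + 1 / (2 * s ^ 3) ≤ 1 / (4 * s) * (5 / 4) := by
    have e : 1 / (2 * s ^ 3) = 1 / (4 * s) * (2 / s ^ 2) := by
      field_simp
      norm_num
    rw [e]
    have : 2 / s ^ 2 ≤ 1 / 4 := by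
      rw [div_le_div_iff₀ (by positivity) (by norm_num)]
      nlinarith
    have h0 : 0 < 1 / (4 * s) := by positivity
    nlinarith
  have h2 : 1 / (4 * s) * (5 / 4) ≤ 2 * (1 / (4 * (5 / 4 * s))) := by
    have hs0 : s ≠ 0 := by linarith
    have e : 2 * (1 / (4 * (5 / 4 * s))) = 1 / (4 * s) * (8 / 5) := by
      rw [show 4 * (5 / 4 * s) = 5 * s by ring]
      field_simp
      ring
    rw [e]
    have h0 : 0 < 1 / (4 * s) := by positivity
    nlinarith
  have h3 : 1 / (4 * (5 / 4 * s)) ≤ 1 / (4 * √((i:ℝ) + 1)) := by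
    apply one_div_le_one_div_of_le (by positivity)
    linarith
  linarith

lemma mx_shift {I k : ℕ} (hI : 64 ≤ I) (hk : k ≤ 32) : mx I / 2 ≤ mx (I + k) := by
  have h : (64:ℝ) ≤ I := by exact_mod_cast hI
  have hk' : (k:ℝ) ≤ 32 := by exact_mod_cast hk
  unfold mx
  push_cast
  rw [div_div, div_le_div_iff₀ (by positivity) (by positivity)]
  linarith

lemma my_shift {I k : ℕ} (hI : 64 ≤ I) (hk : k ≤ 32) : my I / 2 ≤ my (I + k) := by
  have h : (64:ℝ) ≤ I := by exact_mod_cast hI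
  have hk' : (k:ℝ) ≤ 32 := by exact_mod_cast hk
  have hs : (8:ℝ) ≤ √(I:ℝ) := Real.le_sqrt_of_sq_le (by linarith)
  have hs2 : (√(I:ℝ)) ^ 2 = I := Real.sq_sqrt (by linarith)
  have ht : √((I:ℝ) + k) ≤ 2 * √(I:ℝ) := by
    rw [Real.sqrt_le_left (by positivity)]
    nlinarith
  have ht0 : 0 < √((I:ℝ) + k) := Real.sqrt_pos.mpr (by positivity)
  unfold my
  push_cast
  rw [div_div, div_le_div_iff₀ (by positivity) (by positivity)]
  linarith

/-- The accumulated finite set is good at stage `I`. -/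
def Good (a b : ℝ) (I : ℕ) (T : Finset ℕ) : Prop :=
  64 ≤ I ∧ (∀ n ∈ T, n < 16 * I) ∧ |a - ∑ n ∈ T, vx n| ≤ 8 * mx I ∧ |b - ∑ n ∈ T, vy n| ≤ 8 * my I

lemma mx_four {J : ℕ} (hJ : 1 ≤ J) : 2 * mx J = 8 * mx (4 * J) := by
  have : (0:ℝ) < J := by exact_mod_cast hJ
  unfold mx; push_cast; field_simp; norm_num

lemma my_four {J : ℕ} (hJ : 1 ≤ J) : 2 * my J = 4 * my (4 * J) := by
  have h0 : (0:ℝ) < J := by exact_mod_cast hJ
  have h1 : √(4 * (J:ℝ)) = 2 * √(J:ℝ) := by
    rw [show (4:ℝ) * J = 2 ^ 2 * J by norm_num, Real.sqrt_mul (by positivity),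
      Real.sqrt_sq (by norm_num)]
  have := Real.sqrt_pos.mpr h0
  unfold my; push_cast; rw [h1]; field_simp; norm_num

lemma next_good {a b : ℝ} {I : ℕ} {T : Finset ℕ} (h : Good a b I T) :
    ∃ F : Finset ℕ, (∀ n ∈ F, 16 * I ≤ n) ∧ F.card ≤ 256 ∧ Good a b (4 * (I + 32)) (T ∪ F) := by
  classical
  obtain ⟨hI, hT, hx, hy⟩ := h
  obtain ⟨G, hG0, hG⟩ := steps I (by omega) (a - ∑ n ∈ T, vx n) (b - ∑ n ∈ T, vy n)
  have hux := dyn (fun k => mx (I + k)) (fun k => ex (I + k))
    (fun k => |a - ∑ n ∈ T, vx n - ∑ n ∈ G k, vx n|)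
    (fun k => ex_le (by omega)) (fun k => mx_succ (by omega)) (fun k => (hG k).2.2.1) 32
  have huy := dyn (fun k => my (I + k)) (fun k => ey (I + k))
    (fun k => |b - ∑ n ∈ T, vy n - ∑ n ∈ G k, vy n|)
    (fun k => ey_le (by omega)) (fun k => my_succ (by omega)) (fun k => (hG k).2.2.2) 32
  have hX : |a - ∑ n ∈ T, vx n - ∑ n ∈ G 32, vx n| ≤ 2 * mx (I + 32) := by
    rcases hux with h | h
    · exact h
    · have h1 : ∑ k ∈ range 32, mx I / 2 / 2 ≤ ∑ k ∈ range 32, mx (I + k) / 2 := by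
        apply Finset.sum_le_sum
        intro k hk
        have := mx_shift hI (Finset.mem_range.mp hk).le
        linarith
      rw [Finset.sum_const, Finset.card_range, nsmul_eq_mul] at h1
      simp only [hG0, Finset.sum_empty, sub_zero] at h
      have h2 := mx_pos (i := I + 32) (by omega)
      push_cast at h1
      linarith
  have hY : |b - ∑ n ∈ T, vy n - ∑ n ∈ G 32, vy n| ≤ 2 * my (I + 32) := by
    rcases huy with h | h
    · exact h
    · have h1 : ∑ k ∈ range 32, my I / 2 / 2 ≤ ∑ k ∈ range 32, my (I + k) / 2 := by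
        apply Finset.sum_le_sum
        intro k hk
        have := my_shift hI (Finset.mem_range.mp hk).le
        linarith
      rw [Finset.sum_const, Finset.card_range, nsmul_eq_mul] at h1
      simp only [hG0, Finset.sum_empty, sub_zero] at h
      have h2 := my_pos (i := I + 32) (by omega)
      push_cast at h1
      linarith
  have hlow : ∀ n ∈ G 32, 16 * I ≤ n := by
    intro n hn
    have h1 := (hG 32).1 n hn
    have h2 := owner_le n
    omega
  have hd : Disjoint T (G 32) := by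
    rw [Finset.disjoint_left]
    intro n h1 h2
    have := hT n h1
    have := hlow n h2
    omega
  refine ⟨G 32, hlow, (hG 32).2.1, by omega, ?_, ?_, ?_⟩
  · intro n hn
    rcases Finset.mem_union.mp hn with h | h
    · have := hT n h; omega
    · have h1 := (hG 32).1 n h
      have h2 := lt_owner n
      omega
  · rw [Finset.sum_union hd, ← sub_sub, ← mx_four (by omega)]
    exact hX
  · rw [Finset.sum_union hd, ← sub_sub]
    have h1 := my_four (J := I + 32) (by omega)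
    have h2 := my_pos (i := 4 * (I + 32)) (by omega)
    linarith

lemma harm_unbounded (c : ℝ) (I : ℕ) (hI : 1 ≤ I) :
    ∃ K0, ∀ K, K0 ≤ K → c < ∑ k ∈ range K, 1 / (64 * ((I + k : ℕ) : ℝ)) := by
  have h1 : Tendsto (fun n => ∑ i ∈ range n, 1 / ((i:ℝ) + 1)) atTop atTop :=
    Real.tendsto_sum_range_one_div_nat_succ_atTop
  have hI0 : (0:ℝ) < I := by exact_mod_cast hI
  obtain ⟨K0, hK0⟩ := (h1.eventually (eventually_gt_atTop (64 * I * c))).exists_forall_of_atTop
  refine ⟨K0, fun K hK => ?_⟩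
  have h2 := hK0 K hK
  have h3 : ∑ k ∈ range K, 1 / ((k:ℝ) + 1) ≤ 64 * I * ∑ k ∈ range K, 1 / (64 * ((I + k : ℕ) : ℝ)) := by
    rw [Finset.mul_sum]
    apply Finset.sum_le_sum
    intro k _
    push_cast
    rw [mul_one_div, div_le_div_iff₀ (by positivity) (by positivity)]
    have hI1 : (1:ℝ) ≤ I := by exact_mod_cast hI
    have hk0 : (0:ℝ) ≤ k := by positivity
    nlinarith
  have h4 : 64 * I * c < 64 * I * ∑ k ∈ range K, 1 / (64 * ((I + k : ℕ) : ℝ)) := by linarith
  exact lt_of_mul_lt_mul_left h4 (by positivity)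

lemma exists_good (a b : ℝ) : ∃ I T, Good a b I T := by
  classical
  obtain ⟨G, hG0, hG⟩ := steps 64 (by omega) a b
  have hux := dyn (fun k => mx (64 + k)) (fun k => ex (64 + k))
    (fun k => |a - ∑ n ∈ G k, vx n|)
    (fun k => ex_le (by omega)) (fun k => mx_succ (by omega)) (fun k => (hG k).2.2.1)
  have huy := dyn (fun k => my (64 + k)) (fun k => ey (64 + k))
    (fun k => |b - ∑ n ∈ G k, vy n|)
    (fun k => ey_le (by omega)) (fun k => my_succ (by omega)) (fun k => (hG k).2.2.2)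
  obtain ⟨K1, hK1⟩ := harm_unbounded |a| 64 (by omega)
  obtain ⟨K2, hK2⟩ := harm_unbounded |b| 64 (by omega)
  set K := max K1 K2 with hK
  have hX : |a - ∑ n ∈ G K, vx n| ≤ 2 * mx (64 + K) := by
    rcases hux K with h | h
    · exact h
    · exfalso
      have h1 := hK1 K (le_max_left _ _)
      have h2 : ∑ k ∈ range K, 1 / (64 * ((64 + k : ℕ) : ℝ)) ≤ ∑ k ∈ range K, mx (64 + k) / 2 := by
        apply Finset.sum_le_sum
        intro k _
        unfold mx
        rw [div_div]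
        apply one_div_le_one_div_of_le (by positivity)
        linarith
      simp only [hG0, Finset.sum_empty, sub_zero] at h
      have h3 := abs_nonneg (a - ∑ n ∈ G K, vx n)
      linarith
  have hY : |b - ∑ n ∈ G K, vy n| ≤ 2 * my (64 + K) := by
    rcases huy K with h | h
    · exact h
    · exfalso
      have h1 := hK2 K (le_max_right _ _)
      have h2 : ∑ k ∈ range K, 1 / (64 * ((64 + k : ℕ) : ℝ)) ≤ ∑ k ∈ range K, my (64 + k) / 2 := by
        apply Finset.sum_le_sum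
        intro k _
        unfold my
        rw [div_div]
        have h5 : (1:ℝ) ≤ ((64 + k : ℕ) : ℝ) := by push_cast; have : (0:ℝ) ≤ k := by positivity
                                                   linarith
        have h6 : √((64 + k : ℕ) : ℝ) ≤ ((64 + k : ℕ) : ℝ) := by
          rw [Real.sqrt_le_left (by positivity)]
          nlinarith
        have h7 : 0 < √((64 + k : ℕ) : ℝ) := Real.sqrt_pos.mpr (by linarith)
        apply one_div_le_one_div_of_le (by positivity)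
        linarith
      simp only [hG0, Finset.sum_empty, sub_zero] at h
      have h3 := abs_nonneg (b - ∑ n ∈ G K, vy n)
      linarith
  refine ⟨4 * (64 + K), G K, by omega, ?_, ?_, ?_⟩
  · intro n hn
    have h1 := (hG K).1 n hn
    have h2 := lt_owner n
    omega
  · rw [← mx_four (by omega)]
    exact hX
  · have h1 := my_four (J := 64 + K) (by omega)
    have h2 := my_pos (i := 4 * (64 + K)) (by omega)
    linarith


/-! ### The limit -/

lemma card_bound_x {F : Finset ℕ} {I : ℕ} (hI : 64 ≤ I) (hF : ∀ n ∈ F, 16 * I ≤ n) (hc : F.card ≤ 256) :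
    |∑ n ∈ F, vx n| ≤ 64 / √(I:ℝ) := by
  have hI' : (64:ℝ) ≤ I := by exact_mod_cast hI
  have hs : (8:ℝ) ≤ √(I:ℝ) := Real.le_sqrt_of_sq_le (by linarith)
  have hs2 : (√(I:ℝ)) ^ 2 = I := Real.sq_sqrt (by linarith)
  have h1 : ∀ n ∈ F, |vx n| ≤ 1 / (4 * √(I:ℝ)) := by
    intro n hn
    refine (abs_vx_le n).trans ?_
    apply one_div_le_one_div_of_le (by positivity)
    have : ((16 * I : ℕ) : ℝ) ≤ n := by exact_mod_cast hF n hn
    push_cast at this
    nlinarith
  refine (Finset.abs_sum_le_sum_abs _ _).trans ?_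
  refine (Finset.sum_le_card_nsmul _ _ _ h1).trans ?_
  rw [nsmul_eq_mul]
  have hc' : (F.card : ℝ) ≤ 256 := by exact_mod_cast hc
  calc (F.card : ℝ) * (1 / (4 * √(I:ℝ))) ≤ 256 * (1 / (4 * √(I:ℝ))) :=
        mul_le_mul_of_nonneg_right hc' (by positivity)
    _ = 64 / √(I:ℝ) := by field_simp; norm_num

lemma card_bound_y {F : Finset ℕ} {I : ℕ} (hI : 64 ≤ I) (hF : ∀ n ∈ F, 16 * I ≤ n) (hc : F.card ≤ 256) :
    |∑ n ∈ F, vy n| ≤ 64 / √(I:ℝ) := by
  have hI' : (64:ℝ) ≤ I := by exact_mod_cast hI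
  have hs : (8:ℝ) ≤ √(I:ℝ) := Real.le_sqrt_of_sq_le (by linarith)
  have h1 : ∀ n ∈ F, |vy n| ≤ 1 / (4 * √(I:ℝ)) := by
    intro n hn
    refine (abs_vy_le n).trans ?_
    apply one_div_le_one_div_of_le (by positivity)
    have : ((16 * I : ℕ) : ℝ) ≤ n := by exact_mod_cast hF n hn
    push_cast at this
    rw [← sqrt16]
    exact Real.sqrt_le_sqrt this
  refine (Finset.abs_sum_le_sum_abs _ _).trans ?_
  refine (Finset.sum_le_card_nsmul _ _ _ h1).trans ?_
  rw [nsmul_eq_mul]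
  have hc' : (F.card : ℝ) ≤ 256 := by exact_mod_cast hc
  calc (F.card : ℝ) * (1 / (4 * √(I:ℝ))) ≤ 256 * (1 / (4 * √(I:ℝ))) :=
        mul_le_mul_of_nonneg_right hc' (by positivity)
    _ = 64 / √(I:ℝ) := by field_simp; norm_num

lemma mx_le {I : ℕ} (hI : 64 ≤ I) : 8 * mx I ≤ 2 / √(I:ℝ) := by
  have hI' : (64:ℝ) ≤ I := by exact_mod_cast hI
  have hs : (8:ℝ) ≤ √(I:ℝ) := Real.le_sqrt_of_sq_le (by linarith)
  have hs2 : (√(I:ℝ)) ^ 2 = I := Real.sq_sqrt (by linarith)
  unfold mx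
  rw [mul_one_div, div_le_div_iff₀ (by positivity) (by positivity)]
  nlinarith

lemma my_le {I : ℕ} (hI : 64 ≤ I) : 8 * my I ≤ 2 / √(I:ℝ) := by
  have hI' : (64:ℝ) ≤ I := by exact_mod_cast hI
  have hs : (8:ℝ) ≤ √(I:ℝ) := Real.le_sqrt_of_sq_le (by linarith)
  unfold my
  rw [mul_one_div, div_le_div_iff₀ (by positivity) (by positivity)]
  linarith

lemma main (a b : ℝ) : ∃ S : Set ℕ, ∀ δ > 0, ∃ N0, ∀ N, N0 ≤ N → ∀ T : Finset ℕ,
    (∀ n, n ∈ T ↔ n ∈ S ∧ n < N) → |∑ n ∈ T, vx n - a| < δ ∧ |∑ n ∈ T, vy n - b| < δ := by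
  classical
  obtain ⟨I0, T0, h0⟩ := exists_good a b
  choose! nx hn1 hn2 hn3 using (fun (I : ℕ) (T : Finset ℕ) (h : Good a b I T) => next_good h)
  let st : ℕ → ℕ × Finset ℕ := fun k => Nat.rec (I0, T0) (fun _ p => (4 * (p.1 + 32), p.2 ∪ nx p.1 p.2)) k
  have hst0 : st 0 = (I0, T0) := rfl
  have hsts : ∀ k, st (k + 1) = (4 * ((st k).1 + 32), (st k).2 ∪ nx (st k).1 (st k).2) := fun k => rfl
  have hg : ∀ k, Good a b (st k).1 (st k).2 := by
    intro k
    induction k with
    | zero => exact h0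
    | succ k ih => rw [hsts k]; exact hn3 _ _ ih
  have hI : ∀ k, (st (k + 1)).1 = 4 * ((st k).1 + 32) := fun k => by rw [hsts k]
  have hT : ∀ k, (st (k + 1)).2 = (st k).2 ∪ nx (st k).1 (st k).2 := fun k => by rw [hsts k]
  have hImono : Monotone fun k => (st k).1 := monotone_nat_of_le_succ fun k => by
    show (st k).1 ≤ (st (k + 1)).1
    rw [hI k]; omega
  have hTmono : Monotone fun k => (st k).2 := monotone_nat_of_le_succ fun k => by
    show (st k).2 ≤ (st (k + 1)).2
    rw [hT k]; exact Finset.subset_union_left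
  have hIk : ∀ k, k ≤ (st k).1 := by
    intro k
    induction k with
    | zero => exact Nat.zero_le _
    | succ k ih => rw [hI k]; omega
  -- later stages do not add small elements
  have hlate : ∀ k l, k ≤ l → ∀ n ∈ (st l).2, n < 16 * (st k).1 → n ∈ (st k).2 := by
    intro k l hkl
    induction l, hkl using Nat.le_induction with
    | base => intro n hn _; exact hn
    | succ l hkl ih =>
      intro n hn hlt
      rw [hT l] at hn
      rcases Finset.mem_union.mp hn with h | h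
      · exact ih n h hlt
      · exfalso
        have h1 := hn1 _ _ (hg l) n h
        have h2 : (st k).1 ≤ (st l).1 := hImono hkl
        omega
  refine ⟨{n | ∃ k, n ∈ (st k).2}, ?_⟩
  intro δ hδ
  -- choose the starting stage
  obtain ⟨K, hK⟩ : ∃ K, 66 / √((st K).1 : ℝ) < δ := by
    obtain ⟨m, hm⟩ := exists_nat_gt ((66 / δ) ^ 2)
    refine ⟨m, ?_⟩
    have h1 : (m:ℝ) ≤ (st m).1 := by exact_mod_cast hIk m
    have h2 : 66 / δ < √((st m).1 : ℝ) := by
      apply Real.lt_sqrt_of_sq_lt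
      linarith
    have h3 : 0 < √((st m).1 : ℝ) := lt_trans (by positivity) h2
    rw [div_lt_iff₀ h3]
    rw [div_lt_iff₀ hδ] at h2
    linarith
  refine ⟨16 * (st K).1, ?_⟩
  have hmain : ∀ k, K ≤ k → ∀ N, 16 * (st K).1 ≤ N → N < 16 * (st k).1 → ∀ T : Finset ℕ,
      (∀ n, n ∈ T ↔ n ∈ {n | ∃ k, n ∈ (st k).2} ∧ n < N) →
      |∑ n ∈ T, vx n - a| < δ ∧ |∑ n ∈ T, vy n - b| < δ := by
    intro k hk
    induction k, hk using Nat.le_induction with
    | base => intro N h1 h2; omega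
    | succ k hk ih =>
      intro N h1 h2 T hTN
      by_cases h3 : N < 16 * (st k).1
      · exact ih N h1 h3 T hTN
      · push Not at h3
        obtain ⟨hk64, hkT, hkx, hky⟩ := hg k
        set F := (nx (st k).1 (st k).2).filter (· < N) with hF
        have hFlow : ∀ n ∈ F, 16 * (st k).1 ≤ n := fun n hn =>
          hn1 _ _ (hg k) n (Finset.mem_filter.mp hn).1
        have hFc : F.card ≤ 256 := (Finset.card_filter_le _ _).trans (hn2 _ _ (hg k))
        have hTeq : T = (st k).2 ∪ F := by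
          ext n
          rw [hTN n, Finset.mem_union, hF, Finset.mem_filter]
          constructor
          · rintro ⟨⟨l, hl⟩, hnN⟩
            have h5 : n ∈ (st (k + 1)).2 := by
              rcases le_total l (k + 1) with h6 | h6
              · exact hTmono h6 hl
              · exact hlate (k + 1) l h6 n hl (by omega)
            rw [hT k] at h5
            rcases Finset.mem_union.mp h5 with h6 | h6
            · left; exact h6
            · right; exact ⟨h6, hnN⟩
          · rintro (h5 | ⟨h5, h6⟩)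
            · exact ⟨⟨k, h5⟩, lt_of_lt_of_le (hkT n h5) h3⟩
            · refine ⟨⟨k + 1, ?_⟩, h6⟩
              rw [hT k]; exact Finset.mem_union_right _ h5
        have hd : Disjoint (st k).2 F := by
          rw [Finset.disjoint_left]
          intro n h5 h6
          have := hkT n h5
          have := hFlow n h6
          omega
        have hsK : 66 / √((st k).1 : ℝ) ≤ 66 / √((st K).1 : ℝ) := by
          have h7 : (64:ℝ) ≤ (st K).1 := by exact_mod_cast (hg K).1
          have h8 : 0 < √((st K).1 : ℝ) := Real.sqrt_pos.mpr (by linarith)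
          apply div_le_div_of_nonneg_left (by norm_num) h8
          apply Real.sqrt_le_sqrt
          exact_mod_cast hImono hk
        have hadd : 64 / √((st k).1 : ℝ) + 2 / √((st k).1 : ℝ) = 66 / √((st k).1 : ℝ) := by
          rw [← add_div]; norm_num
        rw [hTeq, Finset.sum_union hd, Finset.sum_union hd]
        constructor
        · have e : ∑ n ∈ (st k).2, vx n + ∑ n ∈ F, vx n - a
            = ∑ n ∈ F, vx n - (a - ∑ n ∈ (st k).2, vx n) := by ring
          rw [e]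
          have h9 := abs_sub (∑ n ∈ F, vx n) (a - ∑ n ∈ (st k).2, vx n)
          have h10 := card_bound_x hk64 hFlow hFc
          have h11 := mx_le hk64
          linarith
        · have e : ∑ n ∈ (st k).2, vy n + ∑ n ∈ F, vy n - b
            = ∑ n ∈ F, vy n - (b - ∑ n ∈ (st k).2, vy n) := by ring
          rw [e]
          have h9 := abs_sub (∑ n ∈ F, vy n) (b - ∑ n ∈ (st k).2, vy n)
          have h10 := card_bound_y hk64 hFlow hFc
          have h11 := my_le hk64
          linarith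
  intro N hN
  have h1 : K ≤ max K (N + 1) := le_max_left _ _
  refine hmain (max K (N + 1)) h1 N hN ?_
  have h2 := hIk (max K (N + 1))
  have h3 : N + 1 ≤ max K (N + 1) := le_max_right _ _
  omega

/-- Every point `(a, b)` of the plane is the sum of a convergent subseries of the series of the
vectors `((-1) ^ n / n, (-1) ^ n / √n)`, `n ≥ 1`, taken in the original order. -/
theorem result (a b : ℝ) : ∃ ε : ℕ → ℝ, (∀ n, ε n = 0 ∨ ε n = 1) ∧
    Tendsto (fun N : ℕ => ∑ n ∈ Icc 1 N, ε n * ((-1) ^ n / (n : ℝ))) atTop (𝓝 a) ∧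
    Tendsto (fun N : ℕ => ∑ n ∈ Icc 1 N, ε n * ((-1) ^ n / √(n : ℝ))) atTop (𝓝 b) := by
  classical
  obtain ⟨S, hS⟩ := main a b
  have key : ∀ (v : ℕ → ℝ), v 0 = 0 → ∀ N : ℕ, ∑ n ∈ Icc 1 N, (if n ∈ S then (1:ℝ) else 0) * v n
      = ∑ n ∈ (range (N + 1)).filter (· ∈ S), v n := by
    intro v hv N
    rw [Finset.sum_filter]
    have h1 : range (N + 1) = insert 0 (Icc 1 N) := by
      ext n; simp only [Finset.mem_range, Finset.mem_insert, Finset.mem_Icc]; omega
    rw [h1, Finset.sum_insert (by simp), hv]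
    simp
  refine ⟨fun n => if n ∈ S then 1 else 0, fun n => ?_, ?_, ?_⟩
  · dsimp only
    split_ifs
    · right; rfl
    · left; rfl
  · rw [Metric.tendsto_atTop]
    intro δ hδ
    obtain ⟨N0, hN0⟩ := hS δ hδ
    refine ⟨N0, fun N hN => ?_⟩
    have h1 := key vx (by simp [vx]) N
    have h2 := hN0 (N + 1) (by omega) ((range (N + 1)).filter (· ∈ S))
      (fun n => by simp [and_comm])
    rw [Real.dist_eq]
    have h3 : ∑ n ∈ Icc 1 N, (if n ∈ S then (1:ℝ) else 0) * ((-1) ^ n / (n : ℝ))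
      = ∑ n ∈ Icc 1 N, (if n ∈ S then (1:ℝ) else 0) * vx n := rfl
    rw [h3, h1]
    exact h2.1
  · rw [Metric.tendsto_atTop]
    intro δ hδ
    obtain ⟨N0, hN0⟩ := hS δ hδ
    refine ⟨N0, fun N hN => ?_⟩
    have h1 := key vy (by simp [vy]) N
    have h2 := hN0 (N + 1) (by omega) ((range (N + 1)).filter (· ∈ S))
      (fun n => by simp [and_comm])
    rw [Real.dist_eq]
    have h3 : ∑ n ∈ Icc 1 N, (if n ∈ S then (1:ℝ) else 0) * ((-1) ^ n / √(n : ℝ))
      = ∑ n ∈ Icc 1 N, (if n ∈ S then (1:ℝ) else 0) * vy n := rfl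
    rw [h3, h1]
    exact h2.2

end Pool.Agent.Results.MP_51e3e3_an.WholePlane
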